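import Mathlib

/-!
# Online colourings: from two colours to `k` colours (population argument)

A history is the list of the vertices which have arrived, the latest one first.
-/

set_option autoImplicit false
set_option linter.unusedSectionVars false

namespace Pool.Agent.Work.MP_918ecd_co.On

open Multiset

variable {α : Type*} [DecidableEq α]

/-- the colouring produced by the online algorithm `A` on the history `l` -/
def run {β : Type*} [Inhabited β] (A : List α → α → β) : List α → α → β
  | [] => fun _ => default
  | v :: l => Function.update (run A l) v (A l v)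

section run

variable {β : Type*} [Inhabited β] (A : List α → α → β)

theorem run_cons_self (v : α) (l : List α) : run A (v :: l) v = A l v := by
  simp [run]

theorem run_cons_ne {v u : α} (h : u ≠ v) (l : List α) : run A (v :: l) u = run A l u := by
  simp [run, Function.update_of_ne h]

end run

/-- the majority answer of the population `P` -/
noncomputable def maj (σ : List α → α → Bool) (v : α) (P : Multiset (List α)) : Bool :=
  decide (card P ≤ 2 * countP (fun m => σ m v = true) P)

/-- the next marked history of one instance to which `v` is offered -/
noncomputable def mark (σ : List α → α → Bool) (v : α) (P : Multiset (List α)) (m : List α) :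
    List α := if σ m v = maj σ v P then v :: m else m

/-- the population of marked histories; each instance is copied `s` times, `v` is offered to one of
the copies -/
noncomputable def pop (s : ℕ) (σ : List α → α → Bool) : List α → Multiset (List α)
  | [] => {[]}
  | v :: l => (s - 1) • pop s σ l + (pop s σ l).map (mark σ v (pop s σ l))

/-- the online colouring given by the population -/
noncomputable def col (s : ℕ) (σ : List α → α → Bool) (l : List α) (v : α) : Bool :=
  maj σ v (pop s σ l)

theorem card_pop {s : ℕ} (hs : 1 ≤ s) (σ : List α → α → Bool) (l : List α) :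
    card (pop s σ l) = s ^ l.length := by
  induction l with
  | nil => simp [pop]
  | cons v l ih =>
    rw [pop, card_add, card_nsmul, card_map, ih, List.length_cons, pow_succ]
    obtain ⟨r, rfl⟩ := Nat.exists_eq_add_of_le hs
    simp only [Nat.add_sub_cancel_left]
    ring

theorem mem_pop_sublist {s : ℕ} (σ : List α → α → Bool) {l m : List α} (h : m ∈ pop s σ l) :
    m.Sublist l := by
  induction l generalizing m with
  | nil =>
    rw [pop, mem_singleton] at h
    subst h
    exact List.Sublist.refl _
  | cons v l ih =>
    rw [pop, mem_add] at h
    rcases h with h | h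
    · exact (ih (mem_of_mem_nsmul h)).cons v
    · obtain ⟨m', hm', rfl⟩ := mem_map.1 h
      unfold mark
      split_ifs
      · exact (ih hm').cons_cons v
      · exact (ih hm').cons v

/-- marked histories are coloured consistently -/
theorem run_mem_pop {s : ℕ} (σ : List α → α → Bool) {l m : List α} (hl : l.Nodup)
    (h : m ∈ pop s σ l) {u : α} (hu : u ∈ m) : run σ m u = run (col s σ) l u := by
  induction l generalizing m with
  | nil =>
    rw [pop, mem_singleton] at h
    subst h
    exact absurd hu List.not_mem_nil
  | cons v l ih =>
    have hvl : v ∉ l := (List.nodup_cons.1 hl).1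
    have hl' : l.Nodup := (List.nodup_cons.1 hl).2
    have key : ∀ m' ∈ pop s σ l, u ∈ m' → run σ m' u = run (col s σ) (v :: l) u := by
      intro m' hm' hu'
      have hne : u ≠ v := by
        rintro rfl
        exact hvl ((mem_pop_sublist σ hm').subset hu')
      rw [run_cons_ne _ hne]
      exact ih hl' hm' hu'
    rw [pop, mem_add] at h
    rcases h with h | h
    · exact key m (mem_of_mem_nsmul h) hu
    · obtain ⟨m', hm', rfl⟩ := mem_map.1 h
      unfold mark at hu ⊢
      split_ifs with hc
      · rw [if_pos hc] at hu
        by_cases huv : u = v
        · subst huv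
          rw [run_cons_self, run_cons_self, hc]
          rfl
        · rw [run_cons_ne _ huv]
          exact key m' hm' ((List.mem_cons.1 hu).resolve_left huv)
      · rw [if_neg hc] at hu
        exact key m' hm' hu

/-- number of the instances which mark all vertices satisfying ... -/
theorem countP_pop_cons {s : ℕ} (hs : 1 ≤ s) (σ : List α → α → Bool) (v : α) (l : List α)
    (p : List α → Prop) [DecidablePred p]
    (hp : ∀ m, p (v :: m) ↔ p m) :
    countP p (pop s σ (v :: l)) = s * countP p (pop s σ l) := by
  rw [pop, countP_add, countP_nsmul, countP_map]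
  have h1 : countP (fun m => p (mark σ v (pop s σ l) m)) (pop s σ l) =
      countP p (pop s σ l) := by
    refine countP_congr rfl fun m _ => ?_
    unfold mark
    split_ifs
    · exact propext (hp m)
    · rfl
  rw [← countP_eq_card_filter, h1]
  obtain ⟨r, rfl⟩ := Nat.exists_eq_add_of_le hs
  simp only [Nat.add_sub_cancel_left]
  ring

theorem maj_ge (σ : List α → α → Bool) (v : α) (P : Multiset (List α)) :
    card P ≤ 2 * countP (fun m => σ m v = maj σ v P) P := by
  by_cases h : card P ≤ 2 * countP (fun m => σ m v = true) P
  · have h1 : maj σ v P = true := by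
      unfold maj
      exact decide_eq_true h
    simpa only [h1] using h
  · have h1 : maj σ v P = false := by
      unfold maj
      exact decide_eq_false h
    have h2 : countP (fun m => σ m v = true) P + countP (fun m => σ m v = false) P = card P := by
      have h3 := card_eq_countP_add_countP (fun m => σ m v = true) P
      rw [h3]
      congr 1
      exact countP_congr rfl fun m _ => by simp
    simp only [h1]
    omega

theorem not_mem_of_pop {s : ℕ} (σ : List α → α → Bool) {l m : List α} {v : α} (hv : v ∉ l)
    (h : m ∈ pop s σ l) : v ∉ m := fun h1 => hv ((mem_pop_sublist σ h).subset h1)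

/-- number of instances which mark the new vertex and satisfy `p` -/
theorem countP_new {s : ℕ} (σ : List α → α → Bool) {v : α} {l : List α} (hv : v ∉ l)
    (p : List α → Prop) [DecidablePred p] (hp : ∀ m, p (v :: m) ↔ p m) :
    countP (fun m => v ∈ m ∧ p m) (pop s σ (v :: l)) =
      countP (fun m => σ m v = maj σ v (pop s σ l) ∧ p m) (pop s σ l) := by
  rw [pop, countP_add, countP_nsmul, countP_map]
  have h0 : countP (fun m => v ∈ m ∧ p m) (pop s σ l) = 0 := by
    rw [countP_eq_zero]
    intro m hm h
    exact not_mem_of_pop σ hv hm h.1
  rw [h0, mul_zero, zero_add, ← countP_eq_card_filter]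
  refine countP_congr rfl fun m hm => ?_
  unfold mark
  apply propext
  split_ifs with hc
  · simp [hp, hc]
  · simp only [hc, false_and, iff_false, not_and]
    intro h
    exact absurd h (not_mem_of_pop σ hv hm)

theorem count_one {s : ℕ} (hs : 1 ≤ s) (σ : List α → α → Bool) {l : List α} (hl : l.Nodup)
    {u : α} (hu : u ∈ l) :
    s ^ l.length ≤ 2 * s * countP (fun m => u ∈ m) (pop s σ l) ∧
      s * countP (fun m => u ∈ m) (pop s σ l) ≤ s ^ l.length := by
  induction l with
  | nil => exact absurd hu List.not_mem_nil
  | cons v l ih =>
    have hvl : v ∉ l := (List.nodup_cons.1 hl).1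
    have hl' : l.Nodup := (List.nodup_cons.1 hl).2
    by_cases huv : u = v
    · subst huv
      have h1 := countP_new (s := s) σ hvl (fun _ => True) (by simp)
      simp only [and_true] at h1
      rw [h1, List.length_cons, pow_succ, ← card_pop hs σ l]
      have h2 := maj_ge σ u (pop s σ l)
      have h3 := countP_le_card (fun m => σ m u = maj σ u (pop s σ l)) (pop s σ l)
      constructor
      · calc card (pop s σ l) * s ≤
            (2 * countP (fun m => σ m u = maj σ u (pop s σ l)) (pop s σ l)) * s :=
              Nat.mul_le_mul_right _ h2
          _ = _ := by ring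
      · rw [mul_comm]
        exact Nat.mul_le_mul_right _ h3
    · have hu' : u ∈ l := (List.mem_cons.1 hu).resolve_left huv
      obtain ⟨h1, h2⟩ := ih hl' hu'
      have h3 := countP_pop_cons hs σ v l (fun m => u ∈ m) (by simp [huv])
      rw [h3, List.length_cons, pow_succ]
      constructor
      · calc s ^ l.length * s ≤ (2 * s * countP (fun m => u ∈ m) (pop s σ l)) * s :=
            Nat.mul_le_mul_right _ h1
          _ = _ := by ring
      · calc s * (s * countP (fun m => u ∈ m) (pop s σ l)) ≤ s * s ^ l.length :=
            Nat.mul_le_mul_left _ h2
          _ = _ := by ring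

theorem count_two {s : ℕ} (hs : 1 ≤ s) (σ : List α → α → Bool) {l : List α} (hl : l.Nodup)
    {u d : α} (hu : u ∈ l) (hd : d ∈ l) (hne : u ≠ d) :
    s * s * countP (fun m => u ∈ m ∧ d ∈ m) (pop s σ l) ≤ s ^ l.length := by
  induction l with
  | nil => exact absurd hu List.not_mem_nil
  | cons v l ih =>
    have hvl : v ∉ l := (List.nodup_cons.1 hl).1
    have hl' : l.Nodup := (List.nodup_cons.1 hl).2
    have key : ∀ w, w ∈ l → w ≠ v →
        s * s * countP (fun m => v ∈ m ∧ w ∈ m) (pop s σ (v :: l)) ≤ s ^ (v :: l).length := by
      intro w hw hwv
      rw [countP_new (s := s) σ hvl (fun m => w ∈ m) (by simp [hwv]), List.length_cons, pow_succ]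
      have h1 := (count_one hs σ hl' hw).2
      have h2 : countP (fun m => σ m v = maj σ v (pop s σ l) ∧ w ∈ m) (pop s σ l) ≤
          countP (fun m => w ∈ m) (pop s σ l) := by
        rw [countP_eq_card_filter, countP_eq_card_filter]
        exact card_le_card (monotone_filter_right _ fun m hm => hm.2)
      calc s * s * countP (fun m => σ m v = maj σ v (pop s σ l) ∧ w ∈ m) (pop s σ l) ≤
          s * s * countP (fun m => w ∈ m) (pop s σ l) := Nat.mul_le_mul_left _ h2
        _ = s * (s * countP (fun m => w ∈ m) (pop s σ l)) := by ring
        _ ≤ s * s ^ l.length := Nat.mul_le_mul_left _ h1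
        _ = _ := by ring
    by_cases huv : u = v
    · subst huv
      exact key d ((List.mem_cons.1 hd).resolve_left (Ne.symm hne)) (Ne.symm hne)
    · have hu' : u ∈ l := (List.mem_cons.1 hu).resolve_left huv
      by_cases hdv : d = v
      · subst hdv
        have h1 := key u hu' huv
        rwa [countP_congr rfl (fun m _ => propext and_comm)] at h1
      · have hd' : d ∈ l := (List.mem_cons.1 hd).resolve_left hdv
        rw [countP_pop_cons hs σ v l (fun m => u ∈ m ∧ d ∈ m) (by simp [huv, hdv]),
          List.length_cons, pow_succ]
        have := ih hl' hu' hd'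
        calc s * s * (s * countP (fun m => u ∈ m ∧ d ∈ m) (pop s σ l)) =
            (s * s * countP (fun m => u ∈ m ∧ d ∈ m) (pop s σ l)) * s := by ring
          _ ≤ _ := Nat.mul_le_mul_right _ this

end Pool.Agent.Work.MP_918ecd_co.On
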