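import Pool.Agent.Work.MP_918ecd_co.On.Split

/-!
# Online colourings: iteration, `k` colours
-/

set_option autoImplicit false
set_option linter.unusedSectionVars false

namespace Pool.Agent.Work.MP_918ecd_co.On

variable {α : Type*} [DecidableEq α]

/-- colour first with `C`, then colour every class of `C` with `B` -/
def prod {β : Type*} [Inhabited β] (C : List α → α → Bool) (B : List α → α → β) :
    List α → α → Bool × β :=
  fun l v => (C l v, B (l.filter (fun u => run C l u = C l v)) v)

theorem run_prod {β : Type*} [Inhabited β] (C : List α → α → Bool) (B : List α → α → β)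
    {l : List α} (hl : l.Nodup) {u : α} (hu : u ∈ l) :
    run (prod C B) l u = (run C l u, run B (l.filter (fun w => run C l w = run C l u)) u) := by
  induction l with
  | nil => exact absurd hu List.not_mem_nil
  | cons v l ih =>
    have hvl : v ∉ l := (List.nodup_cons.1 hl).1
    have hl' : l.Nodup := (List.nodup_cons.1 hl).2
    have hfil : ∀ b : Bool, l.filter (fun w => run C (v :: l) w = b) =
        l.filter (fun w => run C l w = b) := by
      intro b
      refine List.filter_congr fun w hw => ?_
      have hwv : w ≠ v := by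
        rintro rfl
        exact hvl hw
      rw [run_cons_ne C hwv]
    by_cases huv : u = v
    · subst huv
      rw [run_cons_self, run_cons_self, prod, List.filter_cons, run_cons_self, hfil]
      simp only [decide_true, if_true]
      rw [run_cons_self]
    · have hu' : u ∈ l := (List.mem_cons.1 hu).resolve_left huv
      rw [run_cons_ne _ huv, run_cons_ne _ huv, ih hl' hu', List.filter_cons, hfil]
      split_ifs
      · rw [run_cons_ne _ huv]
      · rfl

theorem run_comp {β γ : Type*} [Inhabited β] [Inhabited γ] (f : β → γ) (A : List α → α → β)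
    {l : List α} {u : α} (hu : u ∈ l) :
    run (fun l v => f (A l v)) l u = f (run A l u) := by
  induction l with
  | nil => exact absurd hu List.not_mem_nil
  | cons v l ih =>
    by_cases huv : u = v
    · subst huv
      rw [run_cons_self, run_cons_self]
    · rw [run_cons_ne _ huv, run_cons_ne _ huv]
      exact ih ((List.mem_cons.1 hu).resolve_left huv)

theorem works_comp {Adm : Set (List α)} {E : Set (Finset α)} {m : ℕ} {β γ : Type*} [Inhabited β]
    [Inhabited γ] {A : List α → α → β} (hA : Works Adm E m A) (f : β → γ)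
    (hf : Function.Surjective f) : Works Adm E m (fun l v => f (A l v)) := by
  intro l hl e he hm c
  obtain ⟨b, rfl⟩ := hf c
  obtain ⟨v, hv, hb⟩ := hA l hl e he hm b
  exact ⟨v, hv, by rw [run_comp f A (mem_inter.1 hv).2, hb]⟩

theorem works_mono {Adm : Set (List α)} {E : Set (Finset α)} {m m' : ℕ} (h : m ≤ m')
    {β : Type*} [Inhabited β] {A : List α → α → β} (hA : Works Adm E m A) : Works Adm E m' A :=
  fun l hl e he hm b => hA l hl e he (h.trans hm) b

theorem works_prod {Adm : Set (List α)} (hsub : ∀ l ∈ Adm, ∀ l' : List α, l'.Sublist l → l' ∈ Adm)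
    (hnd : ∀ l ∈ Adm, l.Nodup) {E : Set (Finset α)} {M t : ℕ} (ht : 1 ≤ t)
    {σ : List α → α → Bool} (hσ : Works Adm E M σ)
    {β : Type*} [Inhabited β] {B : List α → α → β} (hB : Works Adm E t B) :
    Works Adm E (16 * t * M) (prod (col (4 * t) σ) B) := by
  intro l hl e he hm b
  obtain ⟨b1, b2⟩ := b
  set C := col (4 * t) σ with hC
  set L := l.filter (fun w => run C l w = b1) with hL
  have hLA : L ∈ Adm := hsub l hl L List.filter_sublist
  have h1 := split hsub hnd hσ ht hl he hm b1
  have h2 : (inter e l).filter (fun u => run C l u = b1) = inter e L := by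
    ext u
    rw [Finset.mem_filter, mem_inter, mem_inter, hL, List.mem_filter]
    simp only [decide_eq_true_eq]
    tauto
  rw [← hC, h2] at h1
  obtain ⟨v, hv, hvb⟩ := hB L hLA e he h1 b2
  rw [mem_inter] at hv
  have hvl : v ∈ l ∧ run C l v = b1 := by
    have := hv.2
    rw [hL, List.mem_filter, decide_eq_true_eq] at this
    exact this
  refine ⟨v, mem_inter.2 ⟨hv.1, hvl.1⟩, ?_⟩
  rw [run_prod C B (hnd l hl) hvl.1, hvl.2]
  exact Prod.ext rfl hvb

/-- online colourings with `2 ^ r` colours -/
theorem exists_pow {Adm : Set (List α)}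
    (hsub : ∀ l ∈ Adm, ∀ l' : List α, l'.Sublist l → l' ∈ Adm)
    (hnd : ∀ l ∈ Adm, l.Nodup) {E : Set (Finset α)} {M : ℕ} (hM : 1 ≤ M)
    {σ : List α → α → Bool} (hσ : Works Adm E M σ) (r : ℕ) :
    ∃ A : List α → α → (Fin r → Bool), Works Adm E ((16 * M) ^ r) A := by
  induction r with
  | zero =>
    refine ⟨fun _ _ => default, fun l _ e _ hm b => ?_⟩
    rw [pow_zero] at hm
    obtain ⟨v, hv⟩ := Finset.card_pos.1 hm
    exact ⟨v, hv, Subsingleton.elim _ _⟩
  | succ r ih =>
    obtain ⟨B, hB⟩ := ih
    have h1 := works_prod hsub hnd (Nat.one_le_pow _ _ (by omega)) hσ hB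
    refine ⟨_, works_mono (le_of_eq ?_) (works_comp h1
      (fun x : Bool × (Fin r → Bool) => (Fin.cons x.1 x.2 : Fin (r + 1) → Bool)) ?_)⟩
    · rw [pow_succ]
      ring
    · intro y
      exact ⟨(y 0, Fin.tail y), Fin.cons_self_tail y⟩

/-- online colourings with `k` colours -/
theorem exists_fin {Adm : Set (List α)}
    (hsub : ∀ l ∈ Adm, ∀ l' : List α, l'.Sublist l → l' ∈ Adm)
    (hnd : ∀ l ∈ Adm, l.Nodup) {E : Set (Finset α)} {M : ℕ} (hM : 1 ≤ M)
    {σ : List α → α → Bool} (hσ : Works Adm E M σ) (k : ℕ) [NeZero k] :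
    ∃ A : List α → α → Fin k, Works Adm E ((16 * M) ^ Nat.clog 2 k) A := by
  obtain ⟨A, hA⟩ := exists_pow hsub hnd hM hσ (Nat.clog 2 k)
  have hcard : Fintype.card (Fin k) ≤ Fintype.card (Fin (Nat.clog 2 k) → Bool) := by
    rw [Fintype.card_fin, Fintype.card_fun, Fintype.card_fin, Fintype.card_bool]
    exact Nat.le_pow_clog (by norm_num) k
  obtain ⟨g⟩ := Function.Embedding.nonempty_of_card_le hcard
  exact ⟨_, works_comp hA (Function.invFun g) (Function.invFun_surjective g.injective)⟩

end Pool.Agent.Work.MP_918ecd_co.On
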