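import Pool.Agent.Work.MP_918ecd_co.On.Core

/-!
# Online colourings: the splitting theorem
-/

set_option autoImplicit false
set_option linter.unusedSectionVars false

namespace Pool.Agent.Work.MP_918ecd_co.On

open Multiset

variable {α : Type*} [DecidableEq α]

theorem countP_eq_sum_ite {β : Type*} (p : β → Prop) [DecidablePred p] (P : Multiset β) :
    countP p P = (P.map (fun m => if p m then 1 else 0)).sum := by
  induction P using Multiset.induction_on with
  | empty => simp
  | cons a P ih =>
    by_cases h : p a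
    · rw [countP_cons_of_pos _ h, map_cons, sum_cons, ih, if_pos h, add_comm]
    · rw [countP_cons_of_neg _ h, map_cons, sum_cons, ih, if_neg h, zero_add]

theorem sum_map_finset_sum {β ι : Type*} (I : Finset ι) (f : ι → β → ℕ) (P : Multiset β) :
    (P.map (fun m => ∑ i ∈ I, f i m)).sum = ∑ i ∈ I, (P.map (f i)).sum := by
  induction P using Multiset.induction_on with
  | empty => simp
  | cons a P ih => simp [map_cons, sum_cons, ih, Finset.sum_add_distrib]

/-- the elements of `e` which belong to the history `l` -/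
def inter (e : Finset α) (l : List α) : Finset α := e.filter (· ∈ l)

theorem mem_inter {e : Finset α} {l : List α} {u : α} : u ∈ inter e l ↔ u ∈ e ∧ u ∈ l :=
  Finset.mem_filter

/-- `A` works with threshold `m`: on every admissible history every colour appears on every edge
which has at least `m` vertices in the history -/
def Works (Adm : Set (List α)) (E : Set (Finset α)) (m : ℕ) {β : Type*} [Inhabited β]
    (A : List α → α → β) : Prop :=
  ∀ l ∈ Adm, ∀ e ∈ E, m ≤ (inter e l).card → ∀ b : β, ∃ v ∈ inter e l, run A l v = b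

theorem population_count {Adm : Set (List α)} (hsub : ∀ l ∈ Adm, ∀ l' : List α, l'.Sublist l → l' ∈ Adm)
    (hnd : ∀ l ∈ Adm, l.Nodup) {E : Set (Finset α)} {M : ℕ} {σ : List α → α → Bool}
    (hσ : Works Adm E M σ) {s : ℕ} (hs : 1 ≤ s) {l : List α} (hl : l ∈ Adm) {e : Finset α}
    (he : e ∈ E) {D : Finset α} (hD : D ⊆ inter e l) {b : Bool}
    (hDb : ∀ u ∈ inter e l, u ∉ D → run (col s σ) l u = b) :
    (inter e l).card * s ≤ 2 * s * s * (M - 1) + 2 * s * D.card + 2 * D.card * (inter e l).card := by
  classical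
  set P := pop s σ l with hP
  set I := inter e l with hI
  have hnl := hnd l hl
  -- pointwise inequality
  have h1 : ∀ m ∈ P, (∑ u ∈ I, if u ∈ m then 1 else 0) ≤
      (M - 1) + ∑ d ∈ D, ∑ u ∈ I, if u ∈ m ∧ d ∈ m then 1 else 0 := by
    intro m hm
    by_cases hd : ∃ d ∈ D, d ∈ m
    · obtain ⟨d, hdD, hdm⟩ := hd
      have h2 : (∑ u ∈ I, if u ∈ m then 1 else 0) = ∑ u ∈ I, if u ∈ m ∧ d ∈ m then 1 else 0 := by
        refine Finset.sum_congr rfl fun u _ => ?_
        simp [hdm]
      rw [h2]
      exact (Finset.single_le_sum (f := fun d => ∑ u ∈ I, if u ∈ m ∧ d ∈ m then 1 else 0)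
        (fun _ _ => Nat.zero_le _) hdD).trans (Nat.le_add_left _ _)
    · push Not at hd
      have hml : m.Sublist l := mem_pop_sublist σ hm
      have hmA : m ∈ Adm := hsub l hl m hml
      have h3 : (inter e m).card ≤ M - 1 := by
        by_contra hcon
        have hM : M ≤ (inter e m).card := by omega
        obtain ⟨v, hv, hvb⟩ := hσ m hmA e he hM (!b)
        rw [mem_inter] at hv
        have hvI : v ∈ I := mem_inter.2 ⟨hv.1, hml.subset hv.2⟩
        have hvD : v ∉ D := fun h => hd v h hv.2
        have h4 := hDb v hvI hvD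
        rw [← run_mem_pop σ hnl hm hv.2, hvb] at h4
        cases b <;> simp at h4
      have h4 : (∑ u ∈ I, if u ∈ m then 1 else 0) = (inter e m).card := by
        rw [Finset.sum_boole, Nat.cast_id]
        congr 1
        ext u
        rw [Finset.mem_filter, hI, mem_inter, mem_inter]
        constructor
        · rintro ⟨⟨h5, _⟩, h6⟩
          exact ⟨h5, h6⟩
        · rintro ⟨h5, h6⟩
          exact ⟨⟨h5, hml.subset h6⟩, h6⟩
      rw [h4]
      exact h3.trans (Nat.le_add_right _ _)
  -- summed over the population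
  have h2 : ∑ u ∈ I, countP (fun m => u ∈ m) P ≤
      (M - 1) * card P + ∑ d ∈ D, ∑ u ∈ I, countP (fun m => u ∈ m ∧ d ∈ m) P := by
    have h3 := Multiset.sum_map_le_sum_map
      (fun m : List α => ∑ u ∈ I, if u ∈ m then 1 else 0)
      (fun m : List α => (M - 1) + ∑ d ∈ D, ∑ u ∈ I, if u ∈ m ∧ d ∈ m then 1 else 0)
      (s := P) h1
    rw [sum_map_finset_sum, sum_map_add, sum_map_finset_sum] at h3
    simp only [sum_map_finset_sum] at h3
    rw [map_const', sum_replicate, smul_eq_mul, mul_comm (card P)] at h3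
    simpa only [countP_eq_sum_ite] using h3
  have hN : card P = s ^ l.length := card_pop hs σ l
  have hNpos : 0 < s ^ l.length := pow_pos (by omega) _
  -- lower bound
  have h3 : I.card * s ^ l.length ≤ 2 * s * ∑ u ∈ I, countP (fun m => u ∈ m) P := by
    rw [Finset.mul_sum, ← smul_eq_mul, ← Finset.sum_const]
    exact Finset.sum_le_sum fun u hu => (count_one hs σ hnl (mem_inter.1 hu).2).1
  -- upper bound
  have h4 : ∀ d ∈ D, s * s * ∑ u ∈ I, countP (fun m => u ∈ m ∧ d ∈ m) P ≤
      (s + I.card) * s ^ l.length := by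
    intro d hd
    have hdI : d ∈ I := hD hd
    rw [← Finset.add_sum_erase _ _ hdI, mul_add, add_mul]
    refine Nat.add_le_add ?_ ?_
    · have h5 := (count_one hs σ hnl (mem_inter.1 hdI).2).2
      have h6 : countP (fun m => d ∈ m ∧ d ∈ m) P = countP (fun m => d ∈ m) P :=
        countP_congr rfl fun m _ => by simp
      rw [h6, mul_assoc]
      exact Nat.mul_le_mul_left _ h5
    · rw [Finset.mul_sum]
      calc ∑ u ∈ I.erase d, s * s * countP (fun m => u ∈ m ∧ d ∈ m) P ≤
          ∑ _u ∈ I.erase d, s ^ l.length := by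
            refine Finset.sum_le_sum fun u hu => ?_
            exact count_two hs σ hnl (mem_inter.1 (Finset.mem_of_mem_erase hu)).2
              (mem_inter.1 hdI).2 (Finset.ne_of_mem_erase hu)
        _ = (I.erase d).card * s ^ l.length := by rw [Finset.sum_const, smul_eq_mul]
        _ ≤ I.card * s ^ l.length := Nat.mul_le_mul_right _ (Finset.card_erase_le)
  have h5 : s * s * ∑ d ∈ D, ∑ u ∈ I, countP (fun m => u ∈ m ∧ d ∈ m) P ≤
      D.card * ((s + I.card) * s ^ l.length) := by
    rw [Finset.mul_sum, ← smul_eq_mul (D.card), ← Finset.sum_const]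
    exact Finset.sum_le_sum h4
  have h6 : I.card * s * s ^ l.length ≤
      (2 * s * s * (M - 1) + 2 * s * D.card + 2 * D.card * I.card) * s ^ l.length := by
    calc I.card * s * s ^ l.length = s * (I.card * s ^ l.length) := by ring
      _ ≤ s * (2 * s * ∑ u ∈ I, countP (fun m => u ∈ m) P) := Nat.mul_le_mul_left _ h3
      _ = 2 * s * s * ∑ u ∈ I, countP (fun m => u ∈ m) P := by ring
      _ ≤ 2 * s * s * ((M - 1) * card P + ∑ d ∈ D, ∑ u ∈ I, countP (fun m => u ∈ m ∧ d ∈ m) P) :=
          Nat.mul_le_mul_left _ h2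
      _ = 2 * s * s * (M - 1) * s ^ l.length +
          2 * (s * s * ∑ d ∈ D, ∑ u ∈ I, countP (fun m => u ∈ m ∧ d ∈ m) P) := by
          rw [hN]; ring
      _ ≤ 2 * s * s * (M - 1) * s ^ l.length + 2 * (D.card * ((s + I.card) * s ^ l.length)) :=
          Nat.add_le_add_left (Nat.mul_le_mul_left _ h5) _
      _ = _ := by ring
  exact Nat.le_of_mul_le_mul_right h6 hNpos

private theorem split_arith {K d t M' : ℕ} (hdt : d + 1 ≤ t)
    (h1 : K * (4 * t) ≤ 2 * (4 * t) * (4 * t) * M' + 2 * (4 * t) * d + 2 * d * K)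
    (hcard : 16 * t * (1 + M') ≤ K) : False := by
  obtain ⟨r, rfl⟩ := Nat.exists_eq_add_of_le hdt
  have h2 : K * (4 * (d + 1 + r)) ≤ 32 * (d + 1 + r) * (d + 1 + r) * M' +
      8 * (d + 1 + r) * d + 2 * d * K := by
    calc K * (4 * (d + 1 + r)) ≤ _ := h1
      _ = _ := by ring
  have h3 : 2 * (d + 1 + r) * K ≤ 32 * (d + 1 + r) * (d + 1 + r) * M' + 8 * (d + 1 + r) * d := by
    have : 2 * d * K ≤ 2 * (d + 1 + r) * K :=
      Nat.mul_le_mul_right _ (Nat.mul_le_mul_left _ (by omega))
    have h4 : K * (4 * (d + 1 + r)) = 2 * (d + 1 + r) * K + 2 * (d + 1 + r) * K := by ring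
    omega
  have h5 : 2 * (d + 1 + r) * K ≤ 2 * (d + 1 + r) * (16 * (d + 1 + r) * M' + 4 * d) := by
    calc _ ≤ _ := h3
      _ = _ := by ring
  have h6 := Nat.le_of_mul_le_mul_left h5 (by omega)
  have h7 : 16 * (d + 1 + r) * (1 + M') ≤ 16 * (d + 1 + r) * M' + 4 * d := hcard.trans h6
  have h8 : 16 * (d + 1 + r) * (1 + M') = 16 * (d + 1 + r) * M' + 16 * (d + 1 + r) := by ring
  omega

/-- the splitting theorem: every colour of the population colouring appears more than `t` times on
every edge with at least `16 t M` vertices in the history -/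
theorem split {Adm : Set (List α)} (hsub : ∀ l ∈ Adm, ∀ l' : List α, l'.Sublist l → l' ∈ Adm)
    (hnd : ∀ l ∈ Adm, l.Nodup) {E : Set (Finset α)} {M : ℕ} {σ : List α → α → Bool}
    (hσ : Works Adm E M σ) {t : ℕ} (ht : 1 ≤ t) {l : List α} (hl : l ∈ Adm) {e : Finset α}
    (he : e ∈ E) (hcard : 16 * t * M ≤ (inter e l).card) (b : Bool) :
    t ≤ ((inter e l).filter (fun u => run (col (4 * t) σ) l u = b)).card := by
  by_contra hcon
  have h1 := population_count hsub hnd hσ (s := 4 * t) (by omega) hl he
    (D := (inter e l).filter (fun u => run (col (4 * t) σ) l u = b)) (Finset.filter_subset _ _)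
    (b := !b) (by
      intro u hu hu'
      rw [Finset.mem_filter, not_and] at hu'
      have := hu' hu
      cases h : run (col (4 * t) σ) l u <;> cases b <;> simp_all)
  set d := ((inter e l).filter (fun u => run (col (4 * t) σ) l u = b)).card with hd
  set K := (inter e l).card with hK
  have hdt : d + 1 ≤ t := by omega
  have hdK : d ≤ K := Finset.card_le_card (Finset.filter_subset _ _)
  -- K * 4 t ≤ 32 t^2 (M-1) + 8 t d + 2 d K
  rcases Nat.eq_zero_or_pos M with hM | hM
  · -- threshold zero is impossible to satisfy on the empty history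
    subst hM
    obtain ⟨v, hv, _⟩ := hσ [] (hsub l hl [] (List.nil_sublist l)) e he (Nat.zero_le _) true
    rw [mem_inter] at hv
    exact List.not_mem_nil hv.2
  · obtain ⟨M', rfl⟩ := Nat.exists_eq_add_of_le hM
    rw [Nat.add_sub_cancel_left] at h1
    exact split_arith hdt h1 hcard

end Pool.Agent.Work.MP_918ecd_co.On
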